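import Mathlib
import Pool.Agent.Q89.AC8

/-!
# Finite `p`-groups with `|Aut_c(G)| = |γ₂(G)|^{d(G)}`
-/

set_option autoImplicit false

namespace Pool.Agent.Results.MP_932391_al.Classification

open Subgroup Pool.Agent.Q89.AC
open scoped commutatorElement

/-- **Q1.** Let `G` be a finite `p`-group. The number of the class-preserving automorphisms of `G` is
`|γ₂(G)| ^ d(G)` if and only if one of the following three conditions holds.

(A) `G` has class at most two, and `x^G = x γ₂(G)` for all `x` outside of the Frattini subgroup.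

(B) `d(G) = 2`, `γ₂(G)` is cyclic, and, if `p = 2`, all elements of `γ₃(G)` are fourth powers of elements
of `γ₂(G)`.

(C) `p = 2`, `d(G) = 2`, `G` has class at most three, and `v ^ 2 = 1` for all `v ∈ γ₂(G)`. -/
theorem result (p : ℕ) [Fact p.Prime] (G : Type) [Group G] [Finite G] (hG : IsPGroup p G) :
    Nat.card {α : MulAut G // ∀ g, IsConj g (α g)} = Nat.card (commutator G) ^ Group.rank G ↔
      (((⁅commutator G, ⊤⁆ : Subgroup G) = ⊥ ∧
        ∀ x : G, x ∉ frattini G → ∀ y : G, IsConj x y ↔ x⁻¹ * y ∈ commutator G) ∨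
      (Group.rank G = 2 ∧ IsCyclic (commutator G) ∧
        (p = 2 → ∀ v ∈ (⁅commutator G, ⊤⁆ : Subgroup G), ∃ w ∈ commutator G, v = w ^ 4)) ∨
      (p = 2 ∧ Group.rank G = 2 ∧ (⁅⁅commutator G, (⊤ : Subgroup G)⁆, ⊤⁆ : Subgroup G) = ⊥ ∧
        ∀ v ∈ commutator G, v ^ 2 = 1)) := by
  refine (card_iff (G := G)).trans ?_
  have hmin := min_rank (G := G)
  obtain ⟨x₀, hx₀⟩ := exists_gen (G := G)
  have hconj : ∀ x y : G, IsConj x y → x⁻¹ * y ∈ commutator G := by
    intro x y h
    obtain ⟨c, hc⟩ := isConj_iff.1 h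
    have e : x⁻¹ * y = ⁅x⁻¹, c⁆ := by rw [← hc, commutatorElement_def]; group
    rw [e]
    exact comm_mem _ _
  constructor
  · intro hP
    by_cases h3 : g3 G = ⊥
    · left
      refine ⟨h3, fun x hx y => ⟨hconj x y, fun h => ?_⟩⟩
      have h1 : y * x⁻¹ ∈ commutator G := by
        have e : y * x⁻¹ = x * (x⁻¹ * y) * x⁻¹ := by group
        rw [e]
        exact (inferInstance : (commutator G).Normal).conj_mem _ h x
      obtain ⟨g, hg⟩ := conj_all hG hP hx₀ hx h1
      rw [isConj_iff]
      exact ⟨g, by rw [hg]; group⟩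
    right
    have hd : Group.rank G = 2 := step2 hG hP hmin hx₀ h3
    rw [hd] at hP
    obtain ⟨x, y, hxy⟩ : ∃ x y : G, Gen2 x y := by
      clear hmin
      generalize Group.rank G = d at hd x₀
      subst hd
      refine ⟨x₀ 0, x₀ 1, ?_⟩
      have hr : ({x₀ 0, x₀ 1} : Set G) = Set.range x₀ := by
        ext g
        constructor
        · rintro (rfl | rfl)
          · exact ⟨0, rfl⟩
          · exact ⟨1, rfl⟩
        · rintro ⟨i, rfl⟩; fin_cases i <;> simp
      rw [Gen2, hr]; exact hx₀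
    by_cases hcyc : IsCyclic (commutator G)
    · left
      refine ⟨hd, hcyc, ?_⟩
      intro hp2
      subst hp2
      exact cyclic2 hG hP hxy hcyc
    · right
      obtain ⟨hp2, hsq⟩ := claim1 hG hP hxy hcyc
      subst hp2
      have h4 := claim2 hG hP hxy hsq
      have h5 := claim3 hG hP hxy h4
      refine ⟨rfl, hd, h5, fun v hv => ?_⟩
      have h6 := h4 v hv
      rw [h5, mem_bot] at h6
      exact h6
  · rintro (⟨h3, h⟩ | ⟨hd, hcyc, h4⟩ | ⟨hp2, hd, h4, hsq⟩)
    · apply A_P hG hmin h3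
      intro x hx c hc
      rw [h x hx]
      have e : x⁻¹ * (c * x) = x⁻¹ * c * x⁻¹⁻¹ := by group
      rw [e]
      exact (inferInstance : (commutator G).Normal).conj_mem _ hc x⁻¹
    · rw [hd]
      exact B_P hG hcyc h4
    · subst hp2
      rw [hd] at hmin ⊢
      exact C_P hG hmin h4 hsq

end Pool.Agent.Results.MP_932391_al.Classification
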